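import Pool.Agent.MP_56d70a_co.Defs

section

namespace Pool.Agent.MP_56d70a_co

open Finset

/-- A set of fewer than `k` vertices containing `u` and dominating exactly `V - v`. -/
def Arrow {V : Type} (k : ℕ) (G : SimpleGraph V) (u v : V) : Prop :=
  ∃ D : Finset V, D.card < k ∧ u ∈ D ∧ (∀ x ∈ D, ¬ G.Adj v x) ∧
    ∀ w, w ≠ v → w ∈ D ∨ ∃ x ∈ D, G.Adj w x

theorem arrow_of_crit {V : Type} {k : ℕ} {G : SimpleGraph V} (hG : Crit k G) {u v : V}
    (huv : u ≠ v) (hn : ¬ G.Adj u v) : Arrow k G u v ∨ Arrow k G v u := by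
  obtain ⟨D, hD, hdom⟩ := hG.2.2 u v huv hn
  have hnd := hG.2.1 D hD
  unfold Dom at hnd
  push Not at hnd
  obtain ⟨w, hwD, hw⟩ := hnd
  have key : ∀ w', w' ∈ D ∨ (∃ x ∈ D, G.Adj w' x) ∨ (w' = u ∧ v ∈ D) ∨ (w' = v ∧ u ∈ D) := by
    intro w'
    rcases hdom w' with h | ⟨x, hx, hadj⟩
    · exact Or.inl h
    · rcases (SimpleGraph.sup_adj _ _ _ _).1 hadj with h | h
      · exact Or.inr (Or.inl ⟨x, hx, h⟩)
      · rw [SimpleGraph.edge_adj] at h
        rcases h.1 with ⟨h1, h2⟩ | ⟨h1, h2⟩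
        · exact Or.inr (Or.inr (Or.inl ⟨h1, h2 ▸ hx⟩))
        · exact Or.inr (Or.inr (Or.inr ⟨h1, h2 ▸ hx⟩))
  rcases key w with h | ⟨x, hx, h⟩ | ⟨h1, h2⟩ | ⟨h1, h2⟩
  · exact absurd h hwD
  · exact absurd h (hw x hx)
  · subst h1
    refine Or.inr ⟨D, hD, h2, hw, fun w' hw' => ?_⟩
    rcases key w' with h | h | ⟨h3, _⟩ | ⟨_, h4⟩
    · exact Or.inl h
    · exact Or.inr h
    · exact absurd h3 hw'
    · exact absurd h4 hwD
  · subst h1
    refine Or.inl ⟨D, hD, h2, hw, fun w' hw' => ?_⟩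
    rcases key w' with h | h | ⟨_, h4⟩ | ⟨h3, _⟩
    · exact Or.inl h
    · exact Or.inr h
    · exact absurd h4 hwD
    · exact absurd h3 hw'

theorem comps_le {V : Type} [Fintype V] [DecidableEq V] (k : ℕ) (G : SimpleGraph V)
    (hG : Crit k G) (S : Finset V) :
    comps G S ≤ 1 + ∑ j ∈ Finset.range (k - 1), (k - j) * S.card.choose j := by
  classical
  set H := G.induce ((↑S : Set V)ᶜ) with hH
  have hfin : Fintype H.ConnectedComponent := Fintype.ofFinite _
  have hrep : ∀ c : H.ConnectedComponent, ∃ x, H.connectedComponentMk x = c :=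
    fun c => c.exists_rep
  choose r hr using hrep
  let U : Finset V → Finset H.ConnectedComponent :=
    fun T => univ.filter (fun c => ∀ x ∈ T, ¬ G.Adj (r c).1 x)
  let Tg : Finset H.ConnectedComponent := (range (k - 1)).biUnion
    (fun j => ((powersetCard j S).filter (fun T => (U T).card ≤ k - j)).biUnion U)
  have hTg : Tg.card ≤ ∑ j ∈ Finset.range (k - 1), (k - j) * S.card.choose j := by
    refine le_trans card_biUnion_le (sum_le_sum fun j _ => ?_)
    refine le_trans (card_biUnion_le_card_mul _ _ (k - j) (fun T hT => (mem_filter.1 hT).2)) ?_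
    rw [mul_comm]
    refine Nat.mul_le_mul_left _ ?_
    refine le_trans (card_filter_le _ _) ?_
    rw [card_powersetCard]
  have harrow : ∀ c c' : H.ConnectedComponent, Arrow k G (r c).1 (r c').1 → c' ∈ Tg := by
    rintro c c' ⟨D, hD, hc, hno, hdom⟩
    have hcS : (r c).1 ∈ D \ S := mem_sdiff.2 ⟨hc, fun h => (r c).2 (by simpa using h)⟩
    have h1 : 1 ≤ (D \ S).card := card_pos.2 ⟨_, hcS⟩
    have h2 : (D \ S).card + (D ∩ S).card = D.card := card_sdiff_add_card_inter D S
    let φ : V → H.ConnectedComponent := fun x =>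
      if h : x ∈ ((↑S : Set V)ᶜ) then H.connectedComponentMk ⟨x, h⟩ else c'
    have hsub : (U (D ∩ S)).erase c' ⊆ (D \ S).image φ := by
      intro c'' hc''
      obtain ⟨hne, hU⟩ := mem_erase.1 hc''
      have hU' : ∀ x ∈ D ∩ S, ¬ G.Adj (r c'').1 x := (mem_filter.1 hU).2
      have hne' : (r c'').1 ≠ (r c').1 := by
        intro h
        apply hne
        rw [← hr c'', ← hr c', Subtype.ext h]
      rcases hdom _ hne' with h | ⟨x, hx, hadj⟩
      · refine mem_image.2 ⟨(r c'').1, mem_sdiff.2 ⟨h, fun h => (r c'').2 (by simpa using h)⟩, ?_⟩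
        simp only [φ]
        rw [dif_pos (r c'').2]
        exact hr c''
      · have hxS : x ∉ S := fun h => hU' x (mem_inter.2 ⟨hx, h⟩) hadj
        have hxS' : x ∈ ((↑S : Set V)ᶜ) := by simpa using hxS
        refine mem_image.2 ⟨x, mem_sdiff.2 ⟨hx, hxS⟩, ?_⟩
        simp only [φ]
        rw [dif_pos hxS', ← hr c'']
        exact SimpleGraph.ConnectedComponent.sound
          (SimpleGraph.Adj.reachable (G := H) (by simpa [hH] using hadj.symm))
    have h3 : (U (D ∩ S)).card ≤ (D \ S).card + 1 := by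
      have h4 := card_le_card hsub
      have h5 : ((D \ S).image φ).card ≤ (D \ S).card := card_image_le
      have h6 := pred_card_le_card_erase (s := U (D ∩ S)) (a := c')
      omega
    refine mem_biUnion.2 ⟨(D ∩ S).card, mem_range.2 (by omega), mem_biUnion.2 ⟨D ∩ S,
      mem_filter.2 ⟨mem_powersetCard.2 ⟨inter_subset_right, rfl⟩, by omega⟩, ?_⟩⟩
    exact mem_filter.2 ⟨mem_univ _, fun x hx => hno x (mem_inter.1 hx).1⟩
  have hone : (univ \ Tg).card ≤ 1 := by
    refine card_le_one.2 fun c hc c' hc' => ?_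
    by_contra hne
    have hne' : (r c).1 ≠ (r c').1 := by
      intro h
      apply hne
      rw [← hr c, ← hr c', Subtype.ext h]
    have hn : ¬ G.Adj (r c).1 (r c').1 := by
      intro h
      apply hne
      rw [← hr c, ← hr c']
      exact SimpleGraph.ConnectedComponent.sound
        (SimpleGraph.Adj.reachable (G := H) (by simpa [hH] using h))
    rcases arrow_of_crit hG hne' hn with h | h
    · exact (mem_sdiff.1 hc').2 (harrow _ _ h)
    · exact (mem_sdiff.1 hc).2 (harrow _ _ h)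
  have hsum : (univ \ Tg).card + Tg.card = (univ : Finset H.ConnectedComponent).card :=
    card_sdiff_add_card_eq_card (subset_univ _)
  have hc : comps G S = (univ : Finset H.ConnectedComponent).card := by
    unfold comps
    rw [card_univ, ← Nat.card_eq_fintype_card]
  omega

end Pool.Agent.MP_56d70a_co

end

section

namespace Pool.Agent.MP_56d70a_co

open Finset

theorem Dom.mono {V : Type} {G G' : SimpleGraph V} (h : G ≤ G') {D : Finset V} (hD : Dom G D) :
    Dom G' D := fun w => (hD w).imp id (fun ⟨x, hx, ha⟩ => ⟨x, hx, h ha⟩)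

/-- A graph with domination number at least `k` that has a dominating set of size at most `k`
extends to a `k`-critical graph on the same vertex set. -/
theorem exists_crit_ge {V : Type} [Fintype V] (k : ℕ) (H : SimpleGraph V)
    (hH : ∀ D : Finset V, D.card < k → ¬ Dom H D) (hk : ∃ D : Finset V, D.card ≤ k ∧ Dom H D) :
    ∃ G : SimpleGraph V, H ≤ G ∧ Crit k G := by
  obtain ⟨G, hHG, hmax⟩ := Finite.exists_le_maximal
    (p := fun G : SimpleGraph V => ∀ D : Finset V, D.card < k → ¬ Dom G D) hH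
  refine ⟨G, hHG, ?_, hmax.1, fun u v huv hn => ?_⟩
  · obtain ⟨D, hD, hdom⟩ := hk
    refine ⟨D, ?_, hdom.mono hHG⟩
    by_contra hne
    exact hmax.1 D (by omega) (hdom.mono hHG)
  · by_contra hcon
    have h1 : ∀ D : Finset V, D.card < k → ¬ Dom (G ⊔ SimpleGraph.edge u v) D :=
      fun D hD hdom => hcon ⟨D, hD, hdom⟩
    have h2 : G ⊔ SimpleGraph.edge u v ≤ G := hmax.2 h1 le_sup_left
    refine hn (h2 ?_)
    rw [SimpleGraph.sup_adj, SimpleGraph.edge_adj]
    exact Or.inr ⟨Or.inl ⟨rfl, rfl⟩, huv⟩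

theorem comps_of_indep {V : Type} [Fintype V] [DecidableEq V] (G : SimpleGraph V) (S : Finset V)
    (h : ∀ u v, u ∉ S → v ∉ S → ¬ G.Adj u v) : comps G S + S.card = Fintype.card V := by
  have hbot : G.induce ((↑S : Set V)ᶜ) = ⊥ := by
    ext u v
    simp only [SimpleGraph.comap_adj, SimpleGraph.bot_adj, iff_false]
    exact h _ _ (fun hu => u.2 (Finset.mem_coe.2 hu)) (fun hv => v.2 (Finset.mem_coe.2 hv))
  have h1 : comps G S = Nat.card ((↑S : Set V)ᶜ : Set V) := by
    unfold comps
    rw [hbot]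
    symm
    refine Nat.card_eq_of_bijective (⊥ : SimpleGraph _).connectedComponentMk ⟨?_, ?_⟩
    · intro u v huv
      exact SimpleGraph.reachable_bot.1 (SimpleGraph.ConnectedComponent.exact huv)
    · intro c
      exact c.exists_rep
  have h2 : Nat.card ((↑S : Set V)ᶜ : Set V) = (Sᶜ).card := by
    rw [← Finset.coe_compl, Nat.card_coe_set_eq, Set.ncard_coe_finset]
  rw [h1, h2, add_comm]
  exact Finset.card_add_card_compl S

theorem walk_count {V : Type} [DecidableEq V] (G : SimpleGraph V) (S : Finset V)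
    (h : ∀ u v, u ∉ S → v ∉ S → ¬ G.Adj u v) {u v : V} (p : G.Walk u v) :
    p.length + (if u ∈ S then 1 else 0) ≤ 2 * (p.support.filter (fun x => x ∈ S)).length := by
  induction p with
  | nil =>
    rename_i u
    by_cases hu : u ∈ S <;> simp [hu]
  | cons hadj p ih =>
    rename_i a b c
    by_cases ha : a ∈ S
    · simp only [SimpleGraph.Walk.length_cons, SimpleGraph.Walk.support_cons, ha, if_true,
        decide_true, List.filter_cons_of_pos, List.length_cons]
      have : 0 ≤ (if b ∈ S then 1 else 0 : ℕ) := Nat.zero_le _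
      omega
    · have hb : b ∈ S := by
        by_contra hb
        exact h a b ha hb hadj
      rw [if_pos hb] at ih
      rw [if_neg ha, SimpleGraph.Walk.length_cons, SimpleGraph.Walk.support_cons,
        List.filter_cons_of_neg (by simpa using ha)]
      omega

theorem path_length_le {V : Type} [DecidableEq V] (G : SimpleGraph V) (S : Finset V)
    (h : ∀ u v, u ∉ S → v ∉ S → ¬ G.Adj u v) {u v : V} (p : G.Walk u v) (hp : p.IsPath) :
    p.length ≤ 2 * S.card := by
  have h1 := walk_count G S h p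
  have h2 : (p.support.filter (fun x => x ∈ S)).Nodup := hp.support_nodup.filter _
  have h3 : (p.support.filter (fun x => x ∈ S)).toFinset ⊆ S := by
    intro x hx
    simpa using (List.mem_filter.1 (List.mem_toFinset.1 hx)).2
  have h4 := card_le_card h3
  rw [List.toFinset_card_of_nodup h2] at h4
  omega

theorem pick {V : Type} [DecidableEq V] {q : ℕ} (φ : Fin q → V) (hφ : Function.Injective φ)
    (x₀ : Fin q) (X : Finset V) (hX : X.card + 1 < q) : ∃ x, x ≠ x₀ ∧ φ x ∉ X := by
  by_contra hcon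
  push Not at hcon
  have h1 : (univ.erase x₀).image φ ⊆ X := by
    intro y hy
    obtain ⟨x, hx, rfl⟩ := mem_image.1 hy
    exact hcon x (mem_erase.1 hx).1
  have h2 := card_le_card h1
  rw [card_image_of_injective _ hφ, card_erase_of_mem (mem_univ _), card_univ,
    Fintype.card_fin] at h2
  omega

end Pool.Agent.MP_56d70a_co

end

section

namespace Pool.Agent.MP_56d70a_co

open Finset

abbrev Vr (d q : ℕ) : Type :=
  (Fin d × Fin d × Fin q) ⊕ ((Fin d → Fin d) × Fin q) ⊕ (Option (Fin d) × Bool)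

abbrev Vx (d q : ℕ) : Type := (Fin d → Fin q) ⊕ Vr d q

def rel {e q : ℕ} : Vx (e + 1) q → Vx (e + 1) q → Prop
  | .inl v, .inr (.inl (i, _, x)) => v i ≠ x
  | .inl v, .inr (.inr (.inl (f, x))) => v (f 0) ≠ x
  | .inl _, .inr (.inr (.inr (c, _))) => c = none
  | .inr (.inl _), .inr (.inl _) => True
  | .inr (.inl (i, j, x)), .inr (.inr (.inl (f, x'))) => ¬ (j = f i ∧ (i = f 0 → x = x'))
  | .inr (.inl (i, _, _)), .inr (.inr (.inr (c, _))) => c = some i
  | _, _ => False

def HG (e q : ℕ) : SimpleGraph (Vx (e + 1) q) := SimpleGraph.fromRel rel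

theorem HG_adj {e q : ℕ} (a b : Vx (e + 1) q) :
    (HG e q).Adj a b ↔ a ≠ b ∧ (rel a b ∨ rel b a) := SimpleGraph.fromRel_adj _ _ _

def col {d q : ℕ} : Vx d q → Option (Option (Fin d))
  | .inl _ => some none
  | .inr (.inl (i, _, _)) => some (some i)
  | .inr (.inr (.inl _)) => none
  | .inr (.inr (.inr (c, _))) => some c

/-- `x` is a neighbour of the twins `z (c, b)`. -/
def Nb {d q : ℕ} (c : Option (Fin d)) (x : Vx d q) : Prop :=
  (c = none ∧ ∃ v, x = .inl v) ∨ ∃ i j y, c = some i ∧ x = .inr (.inl (i, j, y))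

theorem nb_of_adj {e q : ℕ} (c : Option (Fin (e + 1))) (b : Bool) (x : Vx (e + 1) q)
    (h : (HG e q).Adj (.inr (.inr (.inr (c, b)))) x) : Nb c x := by
  rw [HG_adj] at h
  obtain ⟨_, h⟩ := h
  rcases x with v | ⟨i, j, y⟩ | ⟨f, y⟩ | ⟨c', b'⟩
  · simp only [rel, false_or] at h
    exact Or.inl ⟨h, v, rfl⟩
  · simp only [rel, false_or] at h
    exact Or.inr ⟨i, j, y, h, rfl⟩
  · simp [rel] at h
  · simp [rel] at h

theorem col_of_nb {d q : ℕ} {c : Option (Fin d)} {x : Vx d q} (h : Nb c x) : col x = some c := by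
  rcases h with ⟨rfl, v, rfl⟩ | ⟨i, j, y, rfl, rfl⟩ <;> rfl

theorem not_dom_HG (e q : ℕ) (D : Finset (Vx (e + 1) q)) (hD : D.card < e + 3) :
    ¬ Dom (HG e q) D := by
  classical
  intro hdom
  have h1 : ∀ (b : Bool) (c : Option (Fin (e + 1))),
      ∃ x ∈ D, x = .inr (.inr (.inr (c, b))) ∨ Nb c x := by
    intro b c
    rcases hdom (.inr (.inr (.inr (c, b)))) with h | ⟨x, hx, h⟩
    · exact ⟨_, h, Or.inl rfl⟩
    · exact ⟨x, hx, Or.inr (nb_of_adj c b x h)⟩
  have hcol : ∀ (b : Bool) (c : Option (Fin (e + 1))) (x : Vx (e + 1) q),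
      (x = .inr (.inr (.inr (c, b))) ∨ Nb c x) → col x = some c := by
    rintro b c x (rfl | h)
    · rfl
    · exact col_of_nb h
  choose y hyD hy using h1 true
  have hinj : Function.Injective y := by
    intro c c' h
    have h2 := hcol _ _ _ (hy c)
    have h3 := hcol _ _ _ (hy c')
    rw [h, h3] at h2
    exact (Option.some.inj h2).symm
  have himg : univ.image y = D := by
    apply eq_of_subset_of_card_le
    · intro x hx
      obtain ⟨c, _, rfl⟩ := mem_image.1 hx
      exact hyD c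
    · rw [card_image_of_injective _ hinj, card_univ, Fintype.card_option, Fintype.card_fin]
      omega
  have hmem : ∀ x ∈ D, ∃ c, y c = x := by
    intro x hx
    rw [← himg] at hx
    obtain ⟨c, _, h⟩ := mem_image.1 hx
    exact ⟨c, h⟩
  have hnb : ∀ c, Nb c (y c) := by
    intro c
    obtain ⟨x, hx, h⟩ := h1 false c
    obtain ⟨c', rfl⟩ := hmem x hx
    have h2 := hcol _ _ _ h
    rw [hcol _ _ _ (hy c')] at h2
    obtain rfl := Option.some.inj h2
    rcases h with h | h
    · rcases hy c' with h' | h'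
      · rw [h] at h'
        simp at h'
      · exact h'
    · exact h
  obtain ⟨v', hv'⟩ : ∃ v, y none = .inl v := by
    rcases hnb none with ⟨_, h⟩ | ⟨i, j, z, h, _⟩
    · exact h
    · simp at h
  have h4 : ∀ i : Fin (e + 1), ∃ j z, y (some i) = .inr (.inl (i, j, z)) := by
    intro i
    rcases hnb (some i) with ⟨h, _⟩ | ⟨i', j, z, h, h'⟩
    · simp at h
    · obtain rfl := Option.some.inj h
      exact ⟨j, z, h'⟩
  choose j z hjz using h4
  have hD' : ∀ x ∈ D, x = .inl v' ∨ ∃ i, x = .inr (.inl (i, j i, z i)) := by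
    intro x hx
    obtain ⟨c, rfl⟩ := hmem x hx
    rcases c with _ | i
    · exact Or.inl hv'
    · exact Or.inr ⟨i, hjz i⟩
  have hz : v' = z := by
    rcases hdom (.inl z) with h | ⟨x, hx, h⟩
    · rcases hD' _ h with h | ⟨i, h⟩
      · exact (Sum.inl.inj h).symm
      · simp at h
    · rw [HG_adj] at h
      rcases hD' _ hx with rfl | ⟨i, rfl⟩
      · simp [rel] at h
      · simp [rel] at h
  subst hz
  rcases hdom (.inr (.inr (.inl (j, v' (j 0))))) with h | ⟨x, hx, h⟩
  · rcases hD' _ h with h | ⟨i, h⟩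
    · simp at h
    · simp at h
  · rw [HG_adj] at h
    rcases hD' _ hx with rfl | ⟨i, rfl⟩
    · simp [rel] at h
    · obtain ⟨_, h⟩ := h
      simp only [rel, false_or] at h
      exact h ⟨trivial, fun hi => by rw [← hi]⟩

theorem arrow_HG (e q : ℕ) (v v' : Fin (e + 1) → Fin q) (hv : v ≠ v') :
    ∃ D : Finset (Vx (e + 1) q), D.card ≤ e + 2 ∧ Sum.inl v' ∈ D ∧
      ∀ w, w ≠ Sum.inl v → w ∈ D ∨ ∃ x ∈ D, (HG e q).Adj w x := by
  classical
  obtain ⟨j, hj⟩ : ∃ j, v' j ≠ v j := by
    by_contra h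
    push Not at h
    exact hv (funext fun i => (h i).symm)
  let a : Fin (e + 1) → Vx (e + 1) q := fun i => .inr (.inl (i, j, v i))
  have ha : ∀ i, a i ∈ insert (Sum.inl v') (univ.image a) :=
    fun i => mem_insert_of_mem (mem_image_of_mem _ (mem_univ i))
  refine ⟨insert (Sum.inl v') (univ.image a), ?_, mem_insert_self _ _, ?_⟩
  · refine le_trans (card_insert_le _ _) ?_
    have := card_image_le (s := univ) (f := a)
    rw [card_univ, Fintype.card_fin] at this
    omega
  · rintro (u | ⟨i, j', y⟩ | ⟨f, y⟩ | ⟨c, b⟩) hw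
    · obtain ⟨i, hi⟩ : ∃ i, u i ≠ v i := by
        by_contra h
        push Not at h
        exact hw (congrArg Sum.inl (funext h))
      refine Or.inr ⟨a i, ha i, ?_⟩
      rw [HG_adj]
      exact ⟨by simp [a], Or.inl hi⟩
    · by_cases h : (Sum.inr (Sum.inl (i, j', y)) : Vx (e + 1) q) = a 0
      · exact Or.inl (h ▸ ha 0)
      · refine Or.inr ⟨a 0, ha 0, ?_⟩
        rw [HG_adj]
        exact ⟨h, Or.inl trivial⟩
    · by_cases h : ∀ i, j = f i ∧ (i = f 0 → v i = y)
      · refine Or.inr ⟨Sum.inl v', mem_insert_self _ _, ?_⟩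
        rw [HG_adj]
        refine ⟨by simp, Or.inr ?_⟩
        have h1 : j = f 0 := (h 0).1
        have h2 : v j = y := (h j).2 h1
        show v' (f 0) ≠ y
        rw [← h1, ← h2]
        exact hj
      · push Not at h
        obtain ⟨i, hi⟩ := h
        refine Or.inr ⟨a i, ha i, ?_⟩
        rw [HG_adj]
        refine ⟨by simp [a], Or.inr ?_⟩
        show ¬ (j = f i ∧ (i = f 0 → v i = y))
        rintro ⟨h1, h2⟩
        exact (hi h1).2 (h2 (hi h1).1)
    · rcases c with _ | i
      · refine Or.inr ⟨Sum.inl v', mem_insert_self _ _, ?_⟩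
        rw [HG_adj]
        exact ⟨by simp, Or.inr rfl⟩
      · refine Or.inr ⟨a i, ha i, ?_⟩
        rw [HG_adj]
        exact ⟨by simp [a], Or.inr rfl⟩

theorem conn_of_ge (e q : ℕ) (G : SimpleGraph (Vx (e + 1) q)) (hG : HG e q ≤ G)
    (X : Finset (Vx (e + 1) q)) (hX : X.card + 1 < q) :
    (G.induce ((↑X : Set (Vx (e + 1) q))ᶜ)).Connected := by
  classical
  have x₀ : Fin q := ⟨0, by omega⟩
  have hA : ∀ (i j : Fin (e + 1)) (x₁ : Fin q), ∃ x, x ≠ x₁ ∧
      (Sum.inr (Sum.inl (i, j, x)) : Vx (e + 1) q) ∉ X := fun i j x₁ =>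
    pick (fun x => (Sum.inr (Sum.inl (i, j, x)) : Vx (e + 1) q))
      (fun x y h => by simpa using h) x₁ X hX
  obtain ⟨b, _, hb⟩ := hA 0 0 x₀
  set K := G.induce ((↑X : Set (Vx (e + 1) q))ᶜ) with hK
  have step : ∀ (u w : Vx (e + 1) q) (hu : u ∉ X) (hw : w ∉ X), (HG e q).Adj u w →
      K.Reachable ⟨u, fun h => hu (mem_coe.1 h)⟩ ⟨w, fun h => hw (mem_coe.1 h)⟩ :=
    fun u w hu hw h => SimpleGraph.Adj.reachable (G := K) (hG h)
  have rA : ∀ (t : Fin (e + 1) × Fin (e + 1) × Fin q)
      (ht : (Sum.inr (Sum.inl t) : Vx (e + 1) q) ∉ X),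
      K.Reachable ⟨Sum.inr (Sum.inl (0, 0, b)), fun h => hb (mem_coe.1 h)⟩
        ⟨Sum.inr (Sum.inl t), fun h => ht (mem_coe.1 h)⟩ := by
    intro t ht
    by_cases h : t = (0, 0, b)
    · subst h
      exact SimpleGraph.Reachable.refl _
    · refine step _ _ hb ht ?_
      rw [HG_adj]
      refine ⟨by simpa using Ne.symm h, Or.inl ?_⟩
      trivial
  have rI : ∀ (v : Fin (e + 1) → Fin q) (hv : (Sum.inl v : Vx (e + 1) q) ∉ X),
      K.Reachable ⟨Sum.inr (Sum.inl (0, 0, b)), fun h => hb (mem_coe.1 h)⟩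
        ⟨Sum.inl v, fun h => hv (mem_coe.1 h)⟩ := by
    intro v hv
    obtain ⟨x, hx, hx'⟩ := hA 0 0 (v 0)
    refine (rA _ hx').trans (step _ _ hx' hv ?_)
    rw [HG_adj]
    exact ⟨by simp, Or.inr (Ne.symm hx)⟩
  rw [SimpleGraph.connected_iff_exists_forall_reachable]
  refine ⟨⟨Sum.inr (Sum.inl (0, 0, b)), fun h => hb (mem_coe.1 h)⟩, ?_⟩
  rintro ⟨u, hu⟩
  have hu' : u ∉ X := fun h => hu (mem_coe.2 h)
  rcases u with v | t | ⟨f, y⟩ | ⟨c, b'⟩
  · exact rI v hu'
  · exact rA t hu'
  · obtain ⟨x, hx, hx'⟩ := hA (f 0) (f (f 0)) y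
    refine (rA _ hx').trans (step _ _ hx' hu' ?_)
    rw [HG_adj]
    refine ⟨by simp, Or.inl ?_⟩
    show ¬ (f (f 0) = f (f 0) ∧ (f 0 = f 0 → x = y))
    rintro ⟨_, h⟩
    exact hx (h rfl)
  · rcases c with _ | i
    · obtain ⟨x, _, hx'⟩ := pick (fun x : Fin q => (Sum.inl (fun _ => x) : Vx (e + 1) q))
        (fun x y h => congrFun (Sum.inl.inj h) 0) x₀ X hX
      refine (rI _ hx').trans (step _ _ hx' hu' ?_)
      rw [HG_adj]
      exact ⟨by simp, Or.inl rfl⟩
    · obtain ⟨x, _, hx'⟩ := hA i 0 x₀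
      refine (rA _ hx').trans (step _ _ hx' hu' ?_)
      rw [HG_adj]
      exact ⟨by simp, Or.inl rfl⟩

/-- The construction: for `k = e + 3` and `q ≥ 2`. -/
theorem construction (e q : ℕ) (hq : 2 ≤ q) :
    ∃ (G : SimpleGraph (Vx (e + 1) q)) (S : Finset (Vx (e + 1) q)), Crit (e + 3) G ∧
      (∀ X : Finset (Vx (e + 1) q), X.card + 1 < q →
        (G.induce ((↑X : Set (Vx (e + 1) q))ᶜ)).Connected) ∧
      (∀ u v, u ∉ S → v ∉ S → ¬ G.Adj u v) ∧
      S.card = ((e + 1) ^ 2 + (e + 1) ^ (e + 1)) * q + 2 * (e + 2) ∧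
      Fintype.card (Vx (e + 1) q) = q ^ (e + 1) + S.card := by
  classical
  let v₀ : Fin (e + 1) → Fin q := fun _ => ⟨0, by omega⟩
  let v₁ : Fin (e + 1) → Fin q := fun _ => ⟨1, by omega⟩
  have h01 : v₀ ≠ v₁ := fun h => by simpa [v₀, v₁] using congrFun h 0
  obtain ⟨G, hG, hcrit⟩ := exists_crit_ge (e + 3) (HG e q) (not_dom_HG e q) (by
    obtain ⟨D, hD, _, hdom⟩ := arrow_HG e q v₀ v₁ h01
    refine ⟨insert (Sum.inl v₀) D, le_trans (card_insert_le _ _) (by omega), fun w => ?_⟩
    by_cases hw : w = Sum.inl v₀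
    · exact Or.inl (hw ▸ mem_insert_self _ _)
    · exact (hdom w hw).imp mem_insert_of_mem
        (fun ⟨x, hx, h⟩ => ⟨x, mem_insert_of_mem hx, h⟩))
  let S : Finset (Vx (e + 1) q) := univ.map Function.Embedding.inr
  have hS : S.card = Fintype.card (Vr (e + 1) q) := by
    simp only [S, card_map, card_univ]
  have hnot : ∀ u, u ∉ S → ∃ v, u = Sum.inl v := by
    rintro (v | t) hu
    · exact ⟨v, rfl⟩
    · exact absurd (mem_map.2 ⟨t, mem_univ _, rfl⟩) hu
  refine ⟨G, S, hcrit, conn_of_ge e q G hG, ?_, ?_, ?_⟩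
  · intro u w hu hw hadj
    obtain ⟨v, rfl⟩ := hnot u hu
    obtain ⟨v', rfl⟩ := hnot w hw
    have hne : v ≠ v' := fun h => hadj.ne (congrArg Sum.inl h)
    obtain ⟨D, hD, hv', hdom⟩ := arrow_HG e q v v' hne
    refine hcrit.2.1 D (by omega) (fun w => ?_)
    by_cases hw : w = Sum.inl v
    · exact Or.inr ⟨_, hv', hw ▸ hadj⟩
    · exact (hdom w hw).imp id (fun ⟨x, hx, h⟩ => ⟨x, hx, hG h⟩)
  · rw [hS]
    simp only [Vr, Fintype.card_sum, Fintype.card_prod, Fintype.card_fin, Fintype.card_pi,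
      prod_const, card_univ, Fintype.card_option, Fintype.card_bool]
    ring
  · rw [hS, Fintype.card_sum]
    simp only [Fintype.card_fin, Fintype.card_pi, prod_const, card_univ]

end Pool.Agent.MP_56d70a_co

end

section

namespace Pool.Agent.MP_56d70a_co

open Finset

theorem low_deg {V : Type} [Fintype V] [DecidableEq V] (G : SimpleGraph V) [DecidableRel G.Adj]
    (m : ℕ) (hm : 1 ≤ m) (hc : ∀ (v : V) (c : G.Walk v v), c.IsCycle → c.length ≤ m)
    (W : Finset V) (hW : W.Nonempty) : ∃ v ∈ W, (W.filter (G.Adj v)).card ≤ m + 1 := by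
  obtain ⟨w, hw⟩ := hW
  by_cases h0 : (W.filter (G.Adj w)).card ≤ m + 1
  · exact ⟨w, hw, h0⟩
  obtain ⟨w', hw'⟩ : (W.filter (G.Adj w)).Nonempty := card_pos.1 (by omega)
  let G' : SimpleGraph V :=
    { Adj := fun x y => G.Adj x y ∧ x ∈ W ∧ y ∈ W
      symm := ⟨fun x y h => ⟨h.1.symm, h.2.2, h.2.1⟩⟩
      loopless := ⟨fun x h => G.irrefl h.1⟩ }
  have hle : G' ≤ G := fun x y h => h.1
  have : Nonempty V := ⟨w⟩
  obtain ⟨u, v, p, hp, hmax⟩ := SimpleGraph.Walk.exists_isPath_forall_isPath_length_le_length G'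
  have hadj : G'.Adj w w' := ⟨(mem_filter.1 hw').2, hw, (mem_filter.1 hw').1⟩
  have h1 : 1 ≤ p.length := by
    have := hmax _ _ hadj.toWalk (by simp [hadj.ne])
    simpa using this
  have hu : u ∈ W := by
    have hn : ¬ p.Nil := by
      rw [SimpleGraph.Walk.not_nil_iff_lt_length]
      omega
    exact (p.adj_snd hn).2.1
  refine ⟨u, hu, ?_⟩
  have hsub : W.filter (G.Adj u) ⊆ (range (m + 1)).image p.getVert := by
    intro x hx
    have hux : G'.Adj u x := ⟨(mem_filter.1 hx).2, hu, (mem_filter.1 hx).1⟩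
    have hxs : x ∈ p.support := by
      by_contra hxs
      have := hmax _ _ (SimpleGraph.Walk.cons hux.symm p)
        ((SimpleGraph.Walk.cons_isPath_iff _ _).2 ⟨hp, hxs⟩)
      simp at this
    refine mem_image.2 ⟨(p.takeUntil x hxs).length, mem_range.2 ?_,
      p.getVert_length_takeUntil hxs⟩
    by_contra hlt
    have hq := hp.takeUntil hxs
    have hcyc : (SimpleGraph.Walk.cons hux.symm (p.takeUntil x hxs)).IsCycle := by
      rw [SimpleGraph.Walk.cons_isCycle_iff]
      refine ⟨hq, fun he => ?_⟩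
      rw [Sym2.eq_swap] at he
      have := hq.length_eq_one_of_mem_edges he
      omega
    have := hc _ _ (hcyc.mapLe hle)
    rw [SimpleGraph.Walk.length_map, SimpleGraph.Walk.length_cons] at this
    omega
  refine le_trans (card_le_card hsub) (le_trans card_image_le ?_)
  rw [card_range]

theorem deg_sum_le {V : Type} [Fintype V] [DecidableEq V] (G : SimpleGraph V)
    [DecidableRel G.Adj] (m : ℕ) (hm : 1 ≤ m)
    (hc : ∀ (v : V) (c : G.Walk v v), c.IsCycle → c.length ≤ m) (n : ℕ) :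
    ∀ W : Finset V, W.card = n →
      ∑ x ∈ W, (W.filter (G.Adj x)).card ≤ 2 * (m + 1) * W.card := by
  induction n with
  | zero =>
    intro W hW
    rw [card_eq_zero.1 hW]
    simp
  | succ n ih =>
    intro W hW
    obtain ⟨v, hv, hdeg⟩ := low_deg G m hm hc W (card_pos.1 (by omega))
    have hW' : (W.erase v).card = n := by
      rw [card_erase_of_mem hv]
      omega
    have h1 := ih _ hW'
    have h2 : ∀ x ∈ W.erase v, (W.filter (G.Adj x)).card ≤
        ((W.erase v).filter (G.Adj x)).card + (if G.Adj v x then 1 else 0) := by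
      intro x _
      split_ifs with h
      · rw [filter_erase]
        have := pred_card_le_card_erase (s := W.filter (G.Adj x)) (a := v)
        omega
      · rw [filter_erase, erase_eq_of_notMem]
        · omega
        · exact fun h' => h (mem_filter.1 h').2.symm
    have h3 : ∑ x ∈ W.erase v, (if G.Adj v x then 1 else 0) ≤ m + 1 := by
      rw [← card_filter]
      exact le_trans (card_le_card (filter_subset_filter _ (erase_subset _ _))) hdeg
    have h4 := sum_le_sum h2
    rw [sum_add_distrib] at h4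
    rw [← add_sum_erase W _ hv, hW, hW'] at *
    nlinarith

end Pool.Agent.MP_56d70a_co

end

section

namespace Pool.Agent.MP_56d70a_co

open Finset

section
variable {V : Type} [Fintype V] [DecidableEq V]

/-- `T ∪ {u}` with `|T| ≤ j` covers exactly `Y - v`. -/
def Cov (nb : V → Finset V) (j : ℕ) (Y : Finset V) (p : V × V) : Prop :=
  ∃ T : Finset V, T.card ≤ j ∧ p.2 ∉ nb p.1 ∧ (∀ x ∈ T, p.2 ∉ nb x) ∧
    ∀ y ∈ Y, y ≠ p.2 → y ∈ nb p.1 ∨ ∃ x ∈ T, y ∈ nb x

theorem dense_le (nb : V → Finset V) (hs : ∀ x y, y ∈ nb x ↔ x ∈ nb y) (r K : ℕ)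
    (Y : Finset V) (hY : ∀ y ∈ Y, (nb y).card ≤ r) (hne : 0 < Y.card) :
    (univ.filter (fun x => Y.card ≤ K * (Y ∩ nb x).card)).card ≤ K * r := by
  set B := univ.filter (fun x => Y.card ≤ K * (Y ∩ nb x).card) with hB
  have h1 : ∑ x : V, (Y ∩ nb x).card = ∑ y ∈ Y, (nb y).card := by
    have e1 : ∀ x, (Y ∩ nb x).card = ∑ y ∈ Y, if x ∈ nb y then 1 else 0 := by
      intro x
      rw [← card_filter]
      congr 1
      ext y
      simp [hs x y]
    simp only [e1]
    rw [sum_comm]
    refine sum_congr rfl fun y _ => ?_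
    rw [← card_filter]
    congr 1
    ext x
    simp
  have h2 : ∑ y ∈ Y, (nb y).card ≤ Y.card * r := by
    simpa using sum_le_card_nsmul Y _ r hY
  have h3 : B.card * Y.card ≤ ∑ x ∈ B, K * (Y ∩ nb x).card := by
    simpa using card_nsmul_le_sum B _ Y.card (fun x hx => (mem_filter.1 hx).2)
  have h4 : ∑ x ∈ B, (Y ∩ nb x).card ≤ ∑ x : V, (Y ∩ nb x).card :=
    sum_le_sum_of_subset (subset_univ _)
  rw [← mul_sum] at h3
  have h5 : B.card * Y.card ≤ (K * r) * Y.card := by
    calc B.card * Y.card ≤ K * ∑ x ∈ B, (Y ∩ nb x).card := h3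
      _ ≤ K * (Y.card * r) := Nat.mul_le_mul_left _ (by omega)
      _ = (K * r) * Y.card := by ring
  exact Nat.le_of_mul_le_mul_right h5 hne

open Classical in
theorem cov_card (nb : V → Finset V) (hs : ∀ x y, y ∈ nb x ↔ x ∈ nb y) (r K : ℕ)
    (L : Finset V) (hL : ∀ y ∈ L, (nb y).card ≤ r) (j : ℕ) (hj : j ≤ K) :
    ∀ Y ⊆ L, ((L ×ˢ Y).filter (Cov nb j Y)).card ≤ L.card * (2 * K * r + 2 * (r + 1)) ^ j := by
  induction j with
  | zero =>
    intro Y _
    rw [pow_zero, mul_one]
    refine card_le_card_of_injOn Prod.fst ?_ ?_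
    · intro p hp
      exact mem_coe.2 (mem_product.1 (mem_filter.1 (mem_coe.1 hp)).1).1
    · rintro ⟨u, v⟩ hp ⟨u', v'⟩ hp' h
      obtain rfl : u = u' := h
      obtain ⟨h1, T, hT, h2, _, h4⟩ := mem_filter.1 (mem_coe.1 hp)
      obtain ⟨h1', T', hT', h2', _, _⟩ := mem_filter.1 (mem_coe.1 hp')
      obtain rfl : T = ∅ := card_eq_zero.1 (by omega)
      by_contra hne
      have hne' : v' ≠ v := fun h => hne (by rw [h])
      rcases h4 v' (mem_product.1 h1').2 hne' with h | ⟨x, hx, _⟩
      · exact h2' h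
      · simp at hx
  | succ j ih =>
    intro Y hY
    set t := 2 * K * r + 2 * (r + 1) with ht
    have ht1 : 1 ≤ t := by omega
    by_cases hsm : Y.card ≤ 2 * (r + 1)
    · refine le_trans (card_filter_le _ _) ?_
      rw [card_product]
      refine Nat.mul_le_mul_left _ (le_trans (le_trans hsm (by omega : _ ≤ t)) ?_)
      exact Nat.le_self_pow (by omega) _
    · set B := univ.filter (fun x => Y.card ≤ (2 * K) * (Y ∩ nb x).card) with hB
      have hBc : B.card ≤ t :=
        le_trans (dense_le nb hs r (2 * K) Y (fun y hy => hL y (hY hy)) (by omega)) (by omega)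
      have hsub : (L ×ˢ Y).filter (Cov nb (j + 1) Y) ⊆
          B.biUnion (fun x => (L ×ˢ (Y \ nb x)).filter (Cov nb j (Y \ nb x))) := by
        rintro ⟨u, v⟩ hp
        obtain ⟨h1, T, hT, h2, h3, h4⟩ := mem_filter.1 hp
        obtain ⟨huL, hvY⟩ := mem_product.1 h1
        obtain ⟨x, hxT, hxB⟩ : ∃ x ∈ T, x ∈ B := by
          by_contra hcon
          push Not at hcon
          have a1 : Y ⊆ insert v (nb u ∪ T.biUnion (fun x => Y ∩ nb x)) := by
            intro y hy
            by_cases hyv : y = v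
            · exact hyv ▸ mem_insert_self _ _
            · refine mem_insert_of_mem ?_
              rcases h4 y hy hyv with h | ⟨x, hx, h⟩
              · exact mem_union_left _ h
              · exact mem_union_right _ (mem_biUnion.2 ⟨x, hx, mem_inter.2 ⟨hy, h⟩⟩)
          have a2 := card_le_card a1
          have a3 := card_insert_le v (nb u ∪ T.biUnion (fun x => Y ∩ nb x))
          have a4 := card_union_le (nb u) (T.biUnion (fun x => Y ∩ nb x))
          have a5 : (T.biUnion (fun x => Y ∩ nb x)).card ≤ ∑ x ∈ T, (Y ∩ nb x).card :=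
            card_biUnion_le
          have a6 := hL u huL
          have a7 : ∑ x ∈ T, (2 * K) * (Y ∩ nb x).card ≤ T.card * Y.card := by
            have := sum_le_card_nsmul T (fun x => (2 * K) * (Y ∩ nb x).card) Y.card (by
              intro x hx
              have := hcon x hx
              rw [hB, mem_filter] at this
              push Not at this
              exact (this (mem_univ _)).le)
            simpa using this
          rw [← mul_sum] at a7
          have a8 : K * (2 * ∑ x ∈ T, (Y ∩ nb x).card) ≤ K * Y.card := by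
            calc K * (2 * ∑ x ∈ T, (Y ∩ nb x).card) = 2 * K * ∑ x ∈ T, (Y ∩ nb x).card := by ring
              _ ≤ T.card * Y.card := a7
              _ ≤ K * Y.card := Nat.mul_le_mul_right _ (by omega)
          have a9 := Nat.le_of_mul_le_mul_left a8 (by omega)
          omega
        refine mem_biUnion.2 ⟨x, hxB, mem_filter.2 ⟨mem_product.2 ⟨huL, mem_sdiff.2
          ⟨hvY, h3 x hxT⟩⟩, T.erase x, ?_, h2, fun y hy => h3 y (mem_of_mem_erase hy), ?_⟩⟩
        · rw [card_erase_of_mem hxT]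
          omega
        · intro y hy hyv
          rcases h4 y (mem_sdiff.1 hy).1 hyv with h | ⟨x', hx', h⟩
          · exact Or.inl h
          · refine Or.inr ⟨x', mem_erase.2 ⟨?_, hx'⟩, h⟩
            rintro rfl
            exact (mem_sdiff.1 hy).2 h
      refine le_trans (card_le_card hsub) ?_
      refine le_trans (card_biUnion_le_card_mul _ _ (L.card * t ^ j)
        (fun x _ => ih (by omega) _ (Subset.trans sdiff_subset hY))) ?_
      calc B.card * (L.card * t ^ j) ≤ t * (L.card * t ^ j) := Nat.mul_le_mul_right _ hBc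
        _ = L.card * t ^ (j + 1) := by ring

theorem low_card (nb : V → Finset V) (hs : ∀ x y, y ∈ nb x ↔ x ∈ nb y) (r d : ℕ) (hd : 1 ≤ d)
    (L : Finset V) (hL : ∀ y ∈ L, (nb y).card ≤ r)
    (h : ∀ u v, v ∉ nb u → Cov nb d L (u, v) ∨ Cov nb d L (v, u)) :
    L.card ≤ 3 * (2 * d * r + 2 * (r + 1)) ^ d := by
  classical
  set t := 2 * d * r + 2 * (r + 1) with ht
  set A := (L ×ˢ L).filter (Cov nb d L) with hA
  have h1 : A.card ≤ L.card * t ^ d := cov_card nb hs r d L hL d le_rfl L Subset.rfl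
  have h2 : L ×ˢ L ⊆ (L.biUnion (fun u => (nb u).image (fun v => (u, v)))) ∪
      (A ∪ A.image Prod.swap) := by
    rintro ⟨u, v⟩ hp
    obtain ⟨hu, hv⟩ := mem_product.1 hp
    by_cases huv : v ∈ nb u
    · exact mem_union_left _ (mem_biUnion.2 ⟨u, hu, mem_image_of_mem _ huv⟩)
    · refine mem_union_right _ ?_
      rcases h u v huv with h' | h'
      · exact mem_union_left _ (mem_filter.2 ⟨hp, h'⟩)
      · exact mem_union_right _ (mem_image.2 ⟨(v, u),
          mem_filter.2 ⟨mem_product.2 ⟨hv, hu⟩, h'⟩, rfl⟩)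
  have h3 := card_le_card h2
  have h4 := card_union_le (L.biUnion (fun u => (nb u).image (fun v => (u, v))))
    (A ∪ A.image Prod.swap)
  have h5 := card_union_le A (A.image Prod.swap)
  have h6 : (A.image Prod.swap).card ≤ A.card := card_image_le
  have h7 : (L.biUnion (fun u => (nb u).image (fun v => (u, v)))).card ≤ L.card * r :=
    card_biUnion_le_card_mul _ _ _ (fun u hu => le_trans card_image_le (hL u hu))
  have h8 : r ≤ t ^ d := le_trans (by omega : r ≤ t) (Nat.le_self_pow (by omega) _)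
  rw [card_product] at h3
  rcases Nat.eq_zero_or_pos L.card with h0 | h0
  · omega
  · refine Nat.le_of_mul_le_mul_left ?_ h0
    have := Nat.mul_le_mul_left L.card h8
    calc L.card * L.card ≤ L.card * t ^ d + (L.card * t ^ d + L.card * t ^ d) := by omega
      _ = L.card * (3 * t ^ d) := by ring

end

end Pool.Agent.MP_56d70a_co

end

section

namespace Pool.Agent.MP_56d70a_co

open Finset

/-- A `(d+2)`-critical graph of average degree at most `M` has `O(M^d)` vertices. -/
theorem card_le_of_deg {V : Type} [Fintype V] [DecidableEq V] (G : SimpleGraph V)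
    [DecidableRel G.Adj] (d M : ℕ) (hd : 1 ≤ d) (hG : Crit (d + 2) G)
    (hM : ∑ x : V, (univ.filter (G.Adj x)).card ≤ M * Fintype.card V) :
    Fintype.card V ≤ 6 * ((4 * d + 8) * (M + 1)) ^ d := by
  let nb : V → Finset V := fun x => insert x (univ.filter (G.Adj x))
  have hnb : ∀ x y, y ∈ nb x ↔ y = x ∨ G.Adj x y := by
    intro x y
    simp [nb]
  have hs : ∀ x y, y ∈ nb x ↔ x ∈ nb y := by
    intro x y
    rw [hnb, hnb, G.adj_comm, eq_comm]
  have hsum : ∑ x : V, (nb x).card ≤ (M + 1) * Fintype.card V := by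
    have h1 : ∑ x : V, (nb x).card ≤ ∑ x : V, ((univ.filter (G.Adj x)).card + 1) :=
      sum_le_sum fun x _ => card_insert_le _ _
    rw [sum_add_distrib] at h1
    simp only [sum_const, card_univ, smul_eq_mul, mul_one] at h1
    nlinarith
  set r := 2 * (M + 1) with hr
  set L := univ.filter (fun x => (nb x).card ≤ r) with hL
  have hcov : ∀ u v, Arrow (d + 2) G u v → v ∉ nb u → Cov nb d L (u, v) := by
    rintro u v ⟨D, hD, hu, hno, hdom⟩ huv
    have hvD : v ∉ D := by
      intro hv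
      refine hG.2.1 D hD (fun w => ?_)
      by_cases hw : w = v
      · exact Or.inl (hw ▸ hv)
      · exact hdom w hw
    refine ⟨D.erase u, ?_, huv, ?_, ?_⟩
    · rw [card_erase_of_mem hu]
      omega
    · intro x hx h
      rcases (hnb _ _).1 h with h | h
      · exact hvD (by
          have h' : v = x := h
          rw [h']
          exact mem_of_mem_erase hx)
      · exact hno x (mem_of_mem_erase hx) h.symm
    · intro y _ hyv
      have key : ∀ x ∈ D, y ∈ nb x → y ∈ nb u ∨ ∃ x ∈ D.erase u, y ∈ nb x := by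
        intro x hx h
        by_cases hxu : x = u
        · exact Or.inl (hxu ▸ h)
        · exact Or.inr ⟨x, mem_erase.2 ⟨hxu, hx⟩, h⟩
      rcases hdom y hyv with h | ⟨x, hx, h⟩
      · exact key y h ((hnb _ _).2 (Or.inl rfl))
      · exact key x hx ((hnb _ _).2 (Or.inr h.symm))
  have h1 : L.card ≤ 3 * (2 * d * r + 2 * (r + 1)) ^ d := by
    refine low_card nb hs r d hd L (fun y hy => (mem_filter.1 hy).2) (fun u v huv => ?_)
    have h2 := huv
    rw [hnb] at h2
    push Not at h2
    rcases arrow_of_crit hG (Ne.symm h2.1) h2.2 with h | h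
    · exact Or.inl (hcov u v h huv)
    · exact Or.inr (hcov v u h (fun h' => huv ((hs _ _).1 h')))
  have h2 : (univ \ L).card * r ≤ ∑ x ∈ univ \ L, (nb x).card := by
    have := card_nsmul_le_sum (univ \ L) (fun x => (nb x).card) r (by
      intro x hx
      have := (mem_sdiff.1 hx).2
      rw [hL, mem_filter] at this
      push Not at this
      exact (this (mem_univ _)).le)
    simpa using this
  have h3 : ∑ x ∈ univ \ L, (nb x).card ≤ ∑ x : V, (nb x).card :=
    sum_le_sum_of_subset (subset_univ _)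
  have h4 : (univ \ L).card + L.card = Fintype.card V := by
    rw [card_sdiff_add_card_eq_card (subset_univ _), card_univ]
  have h5 : 2 * (univ \ L).card ≤ Fintype.card V := by
    refine Nat.le_of_mul_le_mul_left (c := M + 1) ?_ (by omega)
    calc (M + 1) * (2 * (univ \ L).card) = (univ \ L).card * r := by rw [hr]; ring
      _ ≤ (M + 1) * Fintype.card V := by omega
  have h6 : (2 * d * r + 2 * (r + 1)) ^ d ≤ ((4 * d + 8) * (M + 1)) ^ d := by
    refine Nat.pow_le_pow_left ?_ _
    rw [hr]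
    nlinarith
  omega

theorem card_le_of_cycles {V : Type} [Fintype V] (G : SimpleGraph V) (d m : ℕ) (hd : 1 ≤ d)
    (hm : 1 ≤ m) (hG : Crit (d + 2) G)
    (hc : ∀ (v : V) (c : G.Walk v v), c.IsCycle → c.length ≤ m) :
    Fintype.card V ≤ (6 * (20 * d + 40) ^ d) * m ^ d := by
  classical
  have h1 := deg_sum_le G m hm hc _ univ rfl
  rw [card_univ] at h1
  refine le_trans (card_le_of_deg G d _ hd hG h1) ?_
  rw [mul_assoc 6, ← mul_pow]
  refine Nat.mul_le_mul_left _ (Nat.pow_le_pow_left ?_ _)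
  nlinarith

theorem comps_le_pow {V : Type} [Fintype V] (G : SimpleGraph V) (d s : ℕ) (hs : 1 ≤ s)
    (hG : Crit (d + 2) G) (S : Finset V) (hS : S.card ≤ s) :
    comps G S ≤ (1 + (d + 1) * (d + 2)) * s ^ d := by
  classical
  have h1 := comps_le (d + 2) G hG S
  have h2 : ∑ j ∈ range (d + 2 - 1), (d + 2 - j) * S.card.choose j ≤
      (range (d + 2 - 1)).card • ((d + 2) * s ^ d) := by
    refine sum_le_card_nsmul _ _ _ (fun j hj => ?_)
    have hj' : j ≤ d := by
      have := mem_range.1 hj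
      omega
    refine Nat.mul_le_mul (by omega) ?_
    calc S.card.choose j ≤ S.card ^ j := Nat.choose_le_pow _ _
      _ ≤ s ^ j := Nat.pow_le_pow_left hS _
      _ ≤ s ^ d := Nat.pow_le_pow_right hs hj'
  rw [card_range, smul_eq_mul, show d + 2 - 1 = d + 1 by omega] at h2
  rw [show d + 2 - 1 = d + 1 by omega] at h1
  have h3 : 1 ≤ s ^ d := Nat.one_le_pow _ _ hs
  nlinarith

/-- The construction in the form used by both hand-ins. -/
theorem construction' (e : ℕ) : ∃ B : ℕ, 1 ≤ B ∧ ∀ l m : ℕ, B * (l + 2) ≤ m →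
    ∃ (V : Type) (_ : Fintype V) (G : SimpleGraph V) (S : Finset V), Crit (e + 3) G ∧ Conn l G ∧
      2 * S.card + 1 ≤ m ∧ m ^ (e + 1) ≤ (2 * B) ^ (e + 1) * comps G S ∧
      comps G S ≤ Fintype.card V ∧
      ∀ (v : V) (c : G.Walk v v), c.IsCycle → c.length ≤ m := by
  classical
  set c₀ := (e + 1) ^ 2 + (e + 1) ^ (e + 1) with hc₀
  set B := 2 * (c₀ + 2 * (e + 2)) + 1 with hB
  refine ⟨B, by omega, fun l m hm => ?_⟩
  set q := m / B with hq
  have hB0 : 0 < B := by omega
  have hq1 : l + 2 ≤ q := (Nat.le_div_iff_mul_le hB0).2 (by rw [mul_comm]; exact hm)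
  have hq2 : B * q ≤ m := Nat.mul_div_le m B
  have hq3 : m < B * (q + 1) := Nat.lt_mul_div_succ m hB0
  obtain ⟨G, S, hcrit, hconn, hind, hS, hcard⟩ := construction e q (by omega)
  have hcomps := comps_of_indep G S hind
  have hc : comps G S = q ^ (e + 1) := by omega
  have hSm : 2 * S.card + 1 ≤ m := by
    rw [hS]
    refine le_trans ?_ hq2
    rw [hB]
    nlinarith
  have hqp : q ≤ q ^ (e + 1) := Nat.le_self_pow (by omega) _
  refine ⟨_, inferInstance, G, S, hcrit, ⟨by omega, fun X hX => hconn X (by omega)⟩, hSm, ?_,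
    by omega, ?_⟩
  · rw [hc, ← mul_pow]
    refine Nat.pow_le_pow_left ?_ _
    nlinarith
  · intro v c hcyc
    have h1 := path_length_le G S hind c.tail hcyc.isPath_tail
    have h2 := c.length_tail_add_one hcyc.not_nil
    omega

end Pool.Agent.MP_56d70a_co

end
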